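import Pool.Agent.H55.FFM.TP

/-!
# Rows TMX, TLN and DEH of ffm: traces and norms along a homomorphism of a field to itself
-/

set_option autoImplicit false

namespace Pool.Agent.H91.FFM
open Pool.Agent.H55.FFM

/-- the degree, for two fields -/
lemma deh_gen {K L : Type} [Field K] [Field L] (τ : K →+* L) :
    @Module.finrank K L _ _ τ.toAlgebra.toModule = Module.finrank τ.fieldRange L := by
  letI : Algebra K L := τ.toAlgebra
  refine Algebra.finrank_eq_of_equiv_equiv (RingHom.rangeRestrictFieldEquiv τ)
    (RingEquiv.refl L) ?_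
  ext x
  rfl

theorem pf_DEH : T_DEH := by
  intro F _ τ
  exact deh_gen τ

/-- linearity and multiplicativity, for two fields -/
lemma tln_gen {K L : Type} [Field K] [Field L] (τ : K →+* L)
    (hd : 1 ≤ @Module.finrank K L _ _ τ.toAlgebra.toModule) :
    (∀ a b : L, @Algebra.trace K L _ _ τ.toAlgebra (a + b) =
      @Algebra.trace K L _ _ τ.toAlgebra a + @Algebra.trace K L _ _ τ.toAlgebra b) ∧
    (∀ (c : K) (a : L), @Algebra.trace K L _ _ τ.toAlgebra (τ c * a) =
      c * @Algebra.trace K L _ _ τ.toAlgebra a) ∧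
    (∀ a b : L, @Algebra.norm K L _ _ τ.toAlgebra (a * b) =
      @Algebra.norm K L _ _ τ.toAlgebra a * @Algebra.norm K L _ _ τ.toAlgebra b) ∧
    (∀ c : K, @Algebra.norm K L _ _ τ.toAlgebra (τ c) =
      c ^ @Module.finrank K L _ _ τ.toAlgebra.toModule) ∧
    (∀ a : L, @Algebra.norm K L _ _ τ.toAlgebra a = 0 ↔ a = 0) := by
  letI : Algebra K L := τ.toAlgebra
  haveI : Module.Finite K L := Module.finite_of_finrank_pos hd
  refine ⟨fun a b => map_add _ a b, ?_, fun a b => map_mul _ a b, ?_, ?_⟩
  · intro c a
    have h1 : τ c * a = c • a := by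
      rw [Algebra.smul_def]
      rfl
    rw [h1]
    have := (Algebra.trace K L).map_smul c a
    rwa [smul_eq_mul] at this
  · intro c
    exact Algebra.norm_algebraMap (S := L) c
  · intro a
    exact Algebra.norm_eq_zero_iff

theorem pf_TLN : T_TLN := by
  intro F _ τ hd
  exact tln_gen τ hd

/-- traces and norms as traces and determinants of matrices, for two fields -/
lemma tmx_gen {K L : Type} [Field K] [Field L] (τ : K →+* L) (E : ℕ) (b : Fin E → L)
    (hb : ∀ a : L, ∃! c : Fin E → K, a = ∑ i, τ (c i) * b i) :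
    @Module.finrank K L _ _ τ.toAlgebra.toModule = E ∧
    ∀ (a : L) (c : Matrix (Fin E) (Fin E) K), (∀ j, a * b j = ∑ i, τ (c i j) * b i) →
      @Algebra.trace K L _ _ τ.toAlgebra a = ∑ j, c j j ∧
      @Algebra.norm K L _ _ τ.toAlgebra a = c.det := by
  letI : Algebra K L := τ.toAlgebra
  have hsm : ∀ (c : K) (a : L), c • a = τ c * a := by
    intro c a
    rw [Algebra.smul_def]
    rfl
  have hli : LinearIndependent K b := by
    rw [Fintype.linearIndependent_iff]
    intro g hg
    obtain ⟨c, -, hu⟩ := hb 0
    have h1 : g = c := hu g (by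
      simp only [hsm] at hg
      exact hg.symm)
    have h2 : (fun _ => 0 : Fin E → K) = c := hu _ (by simp)
    intro i
    rw [h1, ← h2]
  have hsp : ⊤ ≤ Submodule.span K (Set.range b) := by
    intro a _
    obtain ⟨c, hc, -⟩ := hb a
    rw [show a = ∑ i, τ (c i) * b i from hc]
    apply Submodule.sum_mem
    intro i _
    rw [← hsm]
    exact Submodule.smul_mem _ _ (Submodule.subset_span ⟨i, rfl⟩)
  let B : Module.Basis (Fin E) K L := Module.Basis.mk hli hsp
  have hB : ∀ i, B i = b i := fun i => Module.Basis.mk_apply hli hsp i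
  refine ⟨?_, ?_⟩
  · have := Module.finrank_eq_card_basis B
    rw [Fintype.card_fin] at this
    exact this
  · intro a c hc
    have hmat : Algebra.leftMulMatrix B a = c := by
      ext i j
      rw [Algebra.leftMulMatrix_eq_repr_mul]
      have h1 : a * B j = ∑ i, c i j • B i := by
        rw [hB, hc j]
        apply Finset.sum_congr rfl
        intro i _
        rw [hB, hsm]
      rw [h1]
      have h2 := B.repr_sum_self (fun i => c i j)
      exact congrFun h2 i
    constructor
    · rw [Algebra.trace_eq_matrix_trace B a, hmat]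
      rfl
    · rw [Algebra.norm_eq_matrix_det B a, hmat]

theorem pf_TMX : T_TMX := by
  intro F _ τ E b hb
  exact tmx_gen τ E b hb

end Pool.Agent.H91.FFM
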